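import Pool.Agent.H14.WDist

set_option autoImplicit false

namespace Pool.Agent.Results.MP_0b3830_co.Counter

open Pool.Agent.H14.WDist

theorem result :
    ¬ ∀ (n : ℕ), 1 ≤ n → ∀ (m : ℕ) (G : SimpleGraph (Fin m)), G.Connected →
      ((∀ φ : Sym2 (Fin m) → ℝ, (∀ e ∈ G.edgeSet, 0 < φ e) →
          posCount (Matrix.of (wdist G φ)) ≤ n) ↔ ¬ IsMinor (K23 n) G) := by
  intro h
  have h1 := (h 2 (by norm_num) 9 G conn).mpr nominor (fun _ => 1) (fun _ _ => one_pos)
  have h2 := three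
  omega

end Pool.Agent.Results.MP_0b3830_co.Counter
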